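import Pool.Agent.H.MP_e9bccb.J

set_option autoImplicit false
open Set Filter Topology TopologicalSpace

namespace Pool.Agent.H.MP_1117a1
open MP_e9bccb (uni)

variable {Z Z' ι : Type} [TopologicalSpace Z] [TopologicalSpace Z'] {A : Set Z}

def PR {P : Type} [TopologicalSpace P] (G : P → Set Z) : Prop :=
  ∀ (ι : Type) (U : Ultrafilter ι) (t : ι → P) (z : ι → Z) (s : P), (∀ᶠ i in U, z i ∈ G (t i)) →
    Tendsto t U (𝓝 s) → ∃ w ∈ G s, Tendsto z U (𝓝 w)

def KA (A : Set Z) : Prop := ∃ G : (ℕ → ℕ) → Set Z, ⋃ s, G s = A ∧ PR G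

theorem KAm {P : Type} [TopologicalSpace P] [PolishSpace P] [Nonempty P] (G : P → Set Z)
    (h : ⋃ s, G s = A) (k : PR G) : KA A :=
  let ⟨f, f1, f2⟩ := PolishSpace.exists_nat_nat_continuous_surjective P
  ⟨fun s => G (f s), (f2.iUnion_comp G).trans h, fun ι U t z s a b =>
    k ι U _ z _ a ((f1.tendsto s).comp b)⟩

theorem KA.img (h : KA A) {f : Z → Z'} (hf : ContinuousOn f A) : KA (f '' A) := by
  obtain ⟨G, rfl, h⟩ := h
  refine ⟨fun s => f '' G s, image_iUnion.symm, fun ι U t z s a b => ?_⟩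
  obtain ⟨_, x, -⟩ := a.exists
  have : Nonempty Z := ⟨x⟩
  obtain ⟨y, hy⟩ := a.choice
  obtain ⟨w, w1, w2⟩ := h ι U t y s (hy.mono fun _ e => e.1) b
  exact ⟨_, ⟨w, w1, rfl⟩, ((hf w (mem_iUnion.2 ⟨s, w1⟩)).tendsto.comp (tendsto_nhdsWithin_iff.2
    ⟨w2, hy.mono fun _ e => mem_iUnion.2 ⟨_, e.1⟩⟩)).congr' (hy.mono fun _ e => e.2)⟩

theorem KA.pi [Countable ι] (h : KA A) : KA (univ.pi fun _ : ι => A) := by
  obtain ⟨G, rfl, h⟩ := h
  refine KAm (fun s : ι → ℕ → ℕ => univ.pi fun i => G (s i)) (by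
    ext; simp [Classical.skolem]) fun κ U t z s a b => ?_
  choose w w1 w2 using fun i => h κ U (t · i) (z · i) (s i) (a.mono fun _ e => e i trivial)
    (tendsto_pi_nhds.1 b i)
  exact ⟨w, fun i _ => w1 i, tendsto_pi_nhds.2 w2⟩

theorem KA.cls (h : KA A) {C : Set Z} (hC : IsClosed C) : KA (A ∩ C) := by
  obtain ⟨G, rfl, h⟩ := h
  refine ⟨fun s => G s ∩ C, (iUnion_inter ..).symm, fun κ U t z s a b => ?_⟩
  obtain ⟨w, w1, w2⟩ := h κ U t z s (a.mono fun _ e => e.1) b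
  exact ⟨w, ⟨w1, hC.mem_of_tendsto w2 (a.mono fun _ e => e.2)⟩, w2⟩

theorem KA.un {B : ℕ → Set Z} (h : ∀ i, KA (B i)) : KA (⋃ i, B i) := by
  choose G G1 G2 using h
  refine KAm (fun s : ℕ × (ℕ → ℕ) => G s.1 s.2) (by simp [iUnion_prod', G1])
    fun κ U t z s a b => G2 _ κ U _ z _ ?_ b.snd_nhds
  filter_upwards [a, b.fst_nhds (mem_nhds_discrete.2 (mem_singleton _))] with i c d
  exact (show (t i).1 = s.1 from d) ▸ c

theorem KA.cpt (h : IsCompact A) : KA A := ⟨fun _ => A, iUnion_const _, fun _ U _ z _ a _ =>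
  h.ultrafilter_le_nhds' (U.map z) a⟩

theorem KA.pre {e : Z → Z'} (he : IsEmbedding e) {B : Set Z'} (h : KA B) (k : B ⊆ range e) :
    KA (e ⁻¹' B) := by
  obtain ⟨G, rfl, h⟩ := h
  refine ⟨fun s => e ⁻¹' G s, preimage_iUnion.symm, fun κ U t z s a b => ?_⟩
  obtain ⟨w, w1, w2⟩ := h κ U t _ s a b
  obtain ⟨w, rfl⟩ := k (mem_iUnion.2 ⟨s, w1⟩)
  exact ⟨w, w1, he.tendsto_nhds_iff.2 w2⟩

theorem usc : (∃ F : (ℕ → ℕ) → Set Z, (∀ s, IsCompact (F s)) ∧ (∀ z, ∃ s, z ∈ F s) ∧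
    ∀ U, IsOpen U → IsOpen {s | F s ⊆ U}) ↔ KA (univ : Set Z) := by
  refine exists_congr fun F => ⟨fun ⟨a, b, c⟩ => ⟨iUnion_eq_univ_iff.2 b, fun κ U t z s d e =>
    by_contra fun k => ?_⟩, fun ⟨a, b⟩ => ⟨fun s => isCompact_iff_ultrafilter_le_nhds'.2
      fun U c => b _ U _ id s c tendsto_const_nhds, iUnion_eq_univ_iff.1 a, fun O c =>
        isOpen_iff_ultrafilter.2 fun s d U e => by_contra fun k => ?_⟩⟩
  · obtain ⟨S, s1, T, t1, l⟩ := Filter.disjoint_iff.1 ((a s).disjoint_nhdsSet_left.2 fun w l =>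
      ((U.map z).disjoint_iff_not_le.2 fun m => k ⟨w, l, m⟩).symm)
    obtain ⟨O, O1, O2, O3⟩ := mem_nhdsSet_iff_exists.1 s1
    obtain ⟨i, ⟨i1, i2⟩, i3⟩ := ((d.and (e ((c O O1).mem_nhds O2))).and t1).exists
    exact disjoint_left.1 l (O3 (i2 i1)) i3
  · have k : ∀ᶠ t in U, ∃ z ∈ F t, z ∉ O := (Ultrafilter.eventually_not.2 k).mono fun _ =>
      not_subset.1
    obtain ⟨_, x, -⟩ := k.exists
    have : Nonempty Z := ⟨x⟩
    obtain ⟨y, hy⟩ := k.choice
    obtain ⟨w, w1, w2⟩ := b _ U id y s (hy.mono fun _ l => l.1) e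
    exact c.isClosed_compl.mem_of_tendsto w2 (hy.mono fun _ l => l.2) (d w1)

theorem alg {A : Set (Z → ℝ)} (hA : KA A) (hc : ∀ f ∈ A, Continuous f) :
    ∃ S : Subalgebra ℝ (Z → ℝ), A ⊆ S ∧ KA (S : Set (Z → ℝ)) ∧ ∀ f ∈ S, Continuous f := by
  let u : Set (Z → ℝ) → Set (Z → ℝ) := fun B =>
    (fun F : Fin 3 → Z → ℝ => F 0 * F 1 + F 2) '' univ.pi fun _ => B
  have u1 : ∀ B : Set (Z → ℝ), ∀ a ∈ B, ∀ b ∈ B, ∀ c ∈ B, a * b + c ∈ u B := fun B a ha b hb c hc =>
    ⟨![a, b, c], fun i _ => by fin_cases i <;> assumption, rfl⟩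
  let B : ℕ → Set (Z → ℝ) := fun n => u^[n] (⋃ o : ℕ, o.casesOn A fun m =>
    (fun c _ => c) '' Icc (-(m : ℝ)) m)
  have b1 : ∀ n, B (n + 1) = u (B n) := fun n => Function.iterate_succ_apply' _ _ _
  have b2 : ∀ n, KA (B n) ∧ (∀ f ∈ B n, Continuous f) ∧ ∀ c : ℝ, (fun _ => c) ∈ B n := fun n => by
    induction n with
    | zero =>
      refine ⟨KA.un fun o => ?_, fun f hf => ?_, fun c => ?_⟩
      · cases o
        · exact hA
        · exact KA.cpt (isCompact_Icc.image (by fun_prop))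
      · obtain ⟨_ | m, hm⟩ := mem_iUnion.1 hf
        · exact hc f hm
        · obtain ⟨c, -, rfl⟩ := hm
          exact continuous_const
      · obtain ⟨m, hm⟩ := exists_nat_ge |c|
        exact mem_iUnion.2 ⟨m + 1, c, abs_le.1 hm, rfl⟩
    | succ n ih =>
      rw [b1]
      refine ⟨ih.1.pi.img (by fun_prop), ?_, fun c => ?_⟩
      · rintro _ ⟨F, hF, rfl⟩
        exact ((ih.2.1 _ (hF 0 trivial)).mul (ih.2.1 _ (hF 1 trivial))).add (ih.2.1 _ (hF 2 trivial))
      · convert u1 _ _ (ih.2.2 0) _ (ih.2.2 0) _ (ih.2.2 c) using 1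
        ext; simp
  have b3 : Monotone B := monotone_nat_of_le_succ fun n f hf => by
    rw [b1]
    convert u1 _ _ ((b2 n).2.2 0) _ ((b2 n).2.2 0) _ hf using 1
    ext; simp
  have b4 : ∀ a ∈ ⋃ n, B n, ∀ b ∈ ⋃ n, B n, a * b ∈ ⋃ n, B n ∧ a + b ∈ ⋃ n, B n := by
    simp only [mem_iUnion]
    rintro a ⟨n, ha⟩ b ⟨m, hb⟩
    have ha := b3 (le_max_left n m) ha
    have hb := b3 (le_max_right n m) hb
    refine ⟨⟨max n m + 1, ?_⟩, max n m + 1, ?_⟩ <;> rw [b1]
    · convert u1 _ _ ha _ hb _ ((b2 _).2.2 0) using 1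
      ext; simp
    · convert u1 _ _ ha _ ((b2 _).2.2 1) _ hb using 1
      ext; simp
  exact ⟨{carrier := ⋃ n, B n
          mul_mem' := fun ha hb => (b4 _ ha _ hb).1
          add_mem' := fun ha hb => (b4 _ ha _ hb).2
          algebraMap_mem' := fun c => mem_iUnion.2 ⟨0, (b2 0).2.2 c⟩ }, fun f e =>
    mem_iUnion.2 ⟨0, mem_iUnion.2 ⟨0, e⟩⟩, KA.un fun n => (b2 n).1, fun f e =>
      let ⟨n, e⟩ := mem_iUnion.1 e
      (b2 n).2.1 f e⟩

theorem kaC [CompactSpace Z] {A : Set (Z → ℝ)} (hA : KA A) (hc : ∀ f ∈ A, Continuous f)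
    (hs : ∀ x y, (∀ f ∈ A, f x = f y) → x = y) : KA {f : Z → ℝ | Continuous f} := by
  obtain ⟨B, b1, b2, b3⟩ := alg hA hc
  let S : Subalgebra ℝ C(Z, ℝ) := B.comap (ContinuousMap.coeFnAlgHom ℝ)
  have sS : S.SeparatesPoints := fun x y e => by
    obtain ⟨f, hf⟩ := not_forall.1 (mt (hs x y) e)
    obtain ⟨f1, f2⟩ := Classical.not_imp.1 hf
    exact ⟨f, ⟨⟨f, hc f f1⟩, b1 f1, rfl⟩, f2⟩
  let D : Set (ℕ → Z → ℝ) := {F | ∀ n m, n ≤ m → ∀ x, dist (F n x) (F m x) ≤ 1 / ((n : ℝ) + 1)}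
  have d1 : ∀ F ∈ D, ∀ x, Tendsto (F · x) atTop (𝓝 (limUnder atTop (F · x))) := fun F hF x =>
    (cauchySeq_of_le_tendsto_0' _ (hF · · · x) tendsto_one_div_add_atTop_nhds_zero_nat).tendsto_limUnder
  have d2 : ∀ F ∈ D, ∀ n x, dist (F n x) (limUnder atTop (F · x)) ≤ 1 / ((n : ℝ) + 1) :=
    fun F hF n x => le_of_tendsto (tendsto_const_nhds.dist (d1 F hF x))
      ((eventually_ge_atTop n).mono fun m hm => hF n m hm x)
  convert ((b2.pi (ι := ℕ)).cls (C := D) (by
    simp only [D, ofPred_forall]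
    exact isClosed_iInter fun n => isClosed_iInter fun m => isClosed_iInter fun _ =>
      isClosed_iInter fun x => isClosed_le (by fun_prop) continuous_const)).img
    (f := fun F x => limUnder atTop (F · x)) (continuousOn_pi.2 fun x => uni (F := fun n F => F n x)
      (fun n => by fun_prop) fun n F hF => d2 F hF.2 n x) using 1
  refine Subset.antisymm (fun f hf => ?_) ?_
  · choose g hg using fun n : ℕ => ContinuousMap.exists_mem_subalgebra_near_continuous_of_separatesPoints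
      S sS f hf _ (half_pos (Nat.one_div_pos_of_nat (n := n)))
    refine ⟨fun n => (g n).1, ⟨fun n _ => (g n).2, fun n m e x => ?_⟩, funext fun x =>
      Tendsto.limUnder_eq (tendsto_iff_norm_sub_tendsto_zero.2 (squeeze_zero (fun _ => norm_nonneg _)
        (fun n => (hg n x).le.trans (half_le_self Nat.one_div_pos_of_nat.le))
          tendsto_one_div_add_atTop_nhds_zero_nat))⟩
    have := hg n x
    have := hg m x
    have := Nat.one_div_le_one_div (α := ℝ) e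
    have := dist_triangle_right ((g n).1 x) ((g m).1 x) (f x)
    simp only [dist_eq_norm] at *
    linarith
  · rintro _ ⟨F, hF, rfl⟩
    exact continuousOn_univ.1 (uni (F := F) (fun n => (b3 _ (hF.1 n trivial)).continuousOn)
      fun n x _ => d2 F hF.2 n x)

omit [TopologicalSpace Z] in
theorem den {S : Subalgebra ℝ (Z → ℝ)} (hs : ∀ x y, (∀ f ∈ S, f x = f y) → x = y) :
    Dense (S : Set (Z → ℝ)) := fun a => by
  classical
  choose! g g1 g2 using fun x y (e : x ≠ y) => not_forall₂.1 (mt (hs x y) e)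
  have : ∀ s : Finset Z, ∃ f ∈ S, ∀ x ∈ s, f x = a x := fun s => by
    refine ⟨∑ x ∈ s, a x • ∏ y ∈ s.erase x, (g x y x - g x y y)⁻¹ • (g x y - algebraMap ℝ _ (g x y y)),
      sum_mem fun x _ => S.smul_mem (prod_mem fun y e => S.smul_mem (sub_mem (g1 x y
        (Finset.ne_of_mem_erase e).symm) (S.algebraMap_mem _)) _) _, fun x e => ?_⟩
    rw [Finset.sum_apply, Finset.sum_eq_single_of_mem x e fun y _ l => ?_]
    · rw [Pi.smul_apply, Finset.prod_apply, Finset.prod_eq_one fun y l => ?_]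
      · simp
      · simpa using inv_mul_cancel₀ (sub_ne_zero.2 (g2 x y (Finset.ne_of_mem_erase l).symm))
    · rw [Pi.smul_apply, Finset.prod_apply, Finset.prod_eq_zero (Finset.mem_erase.2 ⟨l.symm, e⟩)]
      · simp
      · simp
  choose f f1 f2 using this
  exact mem_closure_of_tendsto (b := atTop) (tendsto_pi_nhds.2 fun x =>
    tendsto_nhds_of_eventually_eq ((eventually_ge_atTop {x}).mono fun s l => f2 s x (l (by simp))))
      (.of_forall f1)

abbrev C (Z : Type) [TopologicalSpace Z] := {g : Z → ℝ // Continuous g}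

def DK (Z : Type) [TopologicalSpace Z] : Prop := ∃ D : Set Z, Dense D ∧ KA D

theorem step {Z'' : Type} [TopologicalSpace Z''] (φ : Z' ≃ₜ C Z) (ψ : Z'' ≃ₜ C Z') (h : DK Z) :
    DK Z'' := by
  obtain ⟨D, d1, d2⟩ := h
  obtain ⟨S, s1, s2, s3⟩ := alg (d2.img (f := fun x (g : Z') => (φ g).1 x) (continuous_pi fun g =>
    (φ g).2).continuousOn) (forall_mem_image.2 fun x _ => (continuous_apply x).comp
      (continuous_subtype_val.comp φ.continuous))
  have e := IsEmbedding.subtypeVal.comp ψ.isEmbedding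
  have k : (S : Set (Z' → ℝ)) ⊆ range (Subtype.val ∘ ψ) := fun f a => ⟨ψ.symm ⟨f, s3 f a⟩, by simp⟩
  refine ⟨_, e.isInducing.dense_iff.2 fun x => ?_, s2.pre e k⟩
  rw [image_preimage_eq_of_subset k]
  exact den (fun g g' l => φ.injective (Subtype.ext (Continuous.ext_on d1 (φ g).2 (φ g').2
    fun x a => l _ (s1 ⟨x, a, rfl⟩)))) _

theorem main {X Y : Type} [TopologicalSpace X] [TopologicalSpace Y] [CompactSpace X]
    [CompactSpace Y] [T2Space Y] {n : ℕ} {A B : ℕ → Type} [∀ k, TopologicalSpace (A k)]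
    [∀ k, TopologicalSpace (B k)] (a : A 0 ≃ₜ X) (φ : ∀ k, A (k + 1) ≃ₜ C (A k)) (b : B 0 ≃ₜ Y)
    (ψ : ∀ k, B (k + 1) ≃ₜ C (B k)) (e : A n ≃ₜ B n) (h : KA (univ : Set (C X))) :
    KA (univ : Set (C Y)) := by
  have fin : ∀ {W : Type} [TopologicalSpace W] {D : Set W} (r : W → Y → ℝ), KA D → Continuous r →
      (∀ w, Continuous (r w)) → (∀ x y, (∀ w ∈ D, r w x = r w y) → x = y) →
        KA (univ : Set (C Y)) := fun r c d e f => by
    have := (kaC (c.img d.continuousOn) (forall_mem_image.2 fun w _ => e w) fun x y l =>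
      f x y fun w m => l _ ⟨w, m, rfl⟩).pre (e := fun g : C Y => g.1) IsEmbedding.subtypeVal
        fun g l => ⟨⟨g, l⟩, rfl⟩
    exact (congrArg KA (eq_univ_of_forall fun g : C Y => g.2)).mp this
  have ev : ∀ {W : Type} [TopologicalSpace W] (x : W), Continuous fun g : C W => g.1 x :=
    fun x => (continuous_apply x).comp continuous_subtype_val
  have s0 : ∀ x y : Y, (∀ g : C Y, g.1 x = g.1 y) → x = y := fun x y l => by_contra fun c =>
    let ⟨f, f1, f2⟩ := separatesPoints_continuous_of_t35Space c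
    f2 (l ⟨f, f1⟩)
  have sp : ∀ k, ∀ x y : B k, (∀ g : C (B k), g.1 x = g.1 y) → x = y := by
    rintro (_ | k) x y l
    · exact b.injective (s0 _ _ fun g => l ⟨_, g.2.comp b.continuous⟩)
    · exact (ψ k).injective (Subtype.ext (funext fun t => l ⟨_, (ev t).comp (ψ k).continuous⟩))
  have dk : ∀ k, DK (A k) ∧ DK (A (k + 1)) := fun k => by
    induction k with
    | zero =>
      have := a.symm.compactSpace
      refine ⟨⟨_, dense_univ, .cpt isCompact_univ⟩, _, Function.Surjective.denseRange (f := fun g :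
        C X => (φ 0).symm ⟨_, g.2.comp a.continuous⟩) fun x => ⟨⟨_, (φ 0 x).2.comp
          a.symm.continuous⟩, (φ 0).symm_apply_eq.2 (Subtype.ext (funext fun t => by simp))⟩, ?_⟩
      exact image_univ ▸ h.img ((φ 0).symm.continuous.comp (.subtype_mk (continuous_pi fun t =>
        ev _) _)).continuousOn
    | succ k ih => exact ⟨ih.2, step (φ k) (φ (k + 1)) ih.1⟩
  have em : ∀ k, (∃ i : Y → B k, Continuous i ∧ i.Injective) ∨
      ∃ i : Y → B (k + 1), Continuous i ∧ i.Injective := fun k => by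
    induction k with
    | zero => exact .inl ⟨_, b.symm.continuous, b.symm.injective⟩
    | succ k ih =>
      refine ih.symm.imp_right fun ⟨i, i1, i2⟩ => ⟨fun y => (ψ (k + 1)).symm ⟨_, (ev (i y)).comp
        (ψ k).continuous⟩, (ψ _).symm.continuous.comp (.subtype_mk (continuous_pi fun g =>
          (ψ k g).2.comp i1) _), fun x y l => i2 (sp k _ _ fun g => ?_)⟩
      simpa using congrFun (congrArg Subtype.val ((ψ _).symm.injective l)) ((ψ k).symm g)
  obtain _ | n := n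
  · exact fin (fun (g : C X) y => g.1 (a (e.symm (b.symm y)))) h (continuous_pi fun _ => ev _)
      (fun g => g.2.comp (by fun_prop)) fun x y l => s0 x y fun g => by
        simpa using l ⟨fun t => g.1 (b (e (a.symm t))), g.2.comp (by fun_prop)⟩ trivial
  obtain ⟨i, i1, i2⟩ | ⟨i, i1, i2⟩ := em n
  · obtain ⟨D, d1, d2⟩ := (dk n).2
    have c : ∀ y, Continuous fun w => (ψ n (e w)).1 (i y) := fun y => (ev _).comp (by fun_prop)
    exact fin (fun w y => (ψ n (e w)).1 (i y)) d2 (continuous_pi c) (fun w => (ψ n _).2.comp i1)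
      fun x y l => i2 (sp n _ _ fun g => by
        simpa using congrFun (Continuous.ext_on d1 (c x) (c y) l) (e.symm ((ψ n).symm g)))
  · obtain ⟨D, d1, d2⟩ := (dk n).1
    exact fin (fun w y => (φ n (e.symm (i y))).1 w) d2 (continuous_pi fun y => (φ n _).2)
      (fun w => (ev w).comp (by fun_prop)) fun x y l => i2 (e.symm.injective ((φ n).injective
        (Subtype.ext (Continuous.ext_on d1 (φ n _).2 (φ n _).2 l))))

end Pool.Agent.H.MP_1117a1
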